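import Pool.Agent.Results.MP_ef4983_al.DiscriminatingCriterion

/-!
# Discriminating modules over arbitrary rings

A module `M` over a ring `R` discriminates a module `N` if for every finite set of nonzero elements
of `N` there is a linear map `N → M` that vanishes at none of them. We characterise the modules
which discriminate their square, over arbitrary rings, show that they discriminate every module
whose points are separated by linear maps to them, that the class is closed under direct products
and direct sums, and that a finitely generated module over a commutative Noetherian ring is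
discriminating if and only if it has no nonzero finite submodule.
-/

set_option autoImplicit false

namespace Pool.Agent.Results.MP_ef4983_al.ModulesOverRings

open DiscriminatingCriterion

universe u v w

open scoped Pointwise

section defs

variable (R : Type u) [Ring R] (M : Type v) [AddCommGroup M] [Module R M]
  (N : Type w) [AddCommGroup N] [Module R N]

/-- `M` discriminates `N`: for every finite set of nonzero elements of `N` there is a linear map
`N → M` which sends none of them to zero. -/
def Disc : Prop := ∀ S : Finset N, (∀ x ∈ S, x ≠ 0) → ∃ f : N →ₗ[R] M, ∀ x ∈ S, f x ≠ 0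

/-- `M` is discriminating: it discriminates its square. -/
def IsDisc : Prop := Disc R M (M × M)

/-- The linear maps `N → M` separate the points of `N`. -/
def Separates : Prop := ∀ x : N, x ≠ 0 → ∃ f : N →ₗ[R] M, f x ≠ 0

end defs

section modules

variable {R : Type u} [Ring R] {M : Type v} [AddCommGroup M] [Module R M]
  {N : Type w} [AddCommGroup N] [Module R N]

/-- Evaluation at a point. -/
def ev (R : Type u) [Ring R] (M : Type v) [AddCommGroup M] [Module R M]
    {N : Type w} [AddCommGroup N] [Module R N] (x : N) : (N →ₗ[R] M) →+ M where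
  toFun f := f x
  map_zero' := rfl
  map_add' _ _ := rfl

lemma finite_range (x : N) (h : (ev R M x).ker.FiniteIndex) :
    (Set.range (fun f : N →ₗ[R] M => f x)).Finite := by
  have h1 : Finite ((N →ₗ[R] M) ⧸ (ev R M x).ker) := AddSubgroup.finite_quotient_of_finiteIndex
  have h2 : Finite (ev R M x).range :=
    Finite.of_equiv _ (QuotientAddGroup.quotientKerEquivRange (ev R M x)).toEquiv
  exact Set.toFinite ((ev R M x).range : Set M)

/-- If all orbits of nonzero elements are infinite, `M` discriminates all the modules whose points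
are separated by maps to `M`. -/
lemma disc_of_orbits (hM : ∀ x : M, x ≠ 0 → (Set.range (fun f : M →ₗ[R] M => f x)).Infinite)
    (hN : Separates R M N) : Disc R M N := by
  classical
  intro S hS
  by_contra hcon
  push Not at hcon
  have hcov : ⋃ s ∈ S, (0 : N →ₗ[R] M) +ᵥ
      (((ev R M s).ker : AddSubgroup (N →ₗ[R] M)) : Set (N →ₗ[R] M)) = Set.univ := by
    apply Set.eq_univ_of_forall
    intro φ
    obtain ⟨s, hs, hφ⟩ := hcon φ
    simp only [zero_vadd, Set.mem_iUnion]
    exact ⟨s, hs, hφ⟩
  obtain ⟨s, hs, hfi⟩ := AddSubgroup.exists_finiteIndex_of_leftCoset_cover hcov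
  obtain ⟨g, hg⟩ := hN s (hS s hs)
  apply hM (g s) hg
  apply (finite_range s hfi).subset
  rintro _ ⟨e, rfl⟩
  exact ⟨e.comp g, rfl⟩

/-- A discriminating module has no nonzero finite fully invariant subgroup. -/
lemma no_finite (hM : IsDisc R M) :
    ¬ ∃ W : AddSubgroup M, W ≠ ⊥ ∧ Finite W ∧ ∀ f : M →ₗ[R] M, ∀ x ∈ W, f x ∈ W := by
  classical
  rintro ⟨W, hne, hfin, hinv⟩
  have : Fintype W := Fintype.ofFinite W
  let S : Finset (M × M) :=
    ((Finset.univ : Finset (W × W)).image (fun w => ((w.1 : M), (w.2 : M)))).erase 0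
  obtain ⟨φ, hφ⟩ := hM S (by
    intro h hh
    exact (Finset.mem_erase.mp hh).1)
  let φ1 : M →ₗ[R] M := φ.comp (LinearMap.inl R M M)
  let φ2 : M →ₗ[R] M := φ.comp (LinearMap.inr R M M)
  have hφ12 : ∀ a b : M, φ (a, b) = φ1 a + φ2 b := by
    intro a b
    change φ (a, b) = φ (a, 0) + φ (0, b)
    rw [← map_add, Prod.mk_add_mk, add_zero, zero_add]
  let f : W × W → W := fun w => ⟨φ ((w.1 : M), (w.2 : M)), by
    rw [hφ12]
    exact W.add_mem (hinv φ1 _ w.1.2) (hinv φ2 _ w.2.2)⟩
  have hinj : Function.Injective f := by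
    intro w w' hww
    have h1 : φ ((w.1 : M), (w.2 : M)) = φ ((w'.1 : M), (w'.2 : M)) := congrArg Subtype.val hww
    by_contra hne'
    have h2 : (((w.1 - w'.1 : W) : M), ((w.2 - w'.2 : W) : M)) ∈ S := by
      refine Finset.mem_erase.mpr ⟨?_, Finset.mem_image.mpr ⟨(w.1 - w'.1, w.2 - w'.2),
        Finset.mem_univ _, rfl⟩⟩
      intro h3
      rw [Prod.ext_iff] at h3
      simp only [Prod.fst_zero, Prod.snd_zero, AddSubgroup.coe_sub] at h3
      apply hne'
      apply Prod.ext
      · exact Subtype.ext (sub_eq_zero.mp h3.1)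
      · exact Subtype.ext (sub_eq_zero.mp h3.2)
    apply hφ _ h2
    have h4 : (((w.1 - w'.1 : W) : M), ((w.2 - w'.2 : W) : M)) =
        ((w.1 : M), (w.2 : M)) - ((w'.1 : M), (w'.2 : M)) := by
      simp
    rw [h4, map_sub, h1, sub_self]
  have hcard : Fintype.card (W × W) ≤ Fintype.card W := Fintype.card_le_of_injective f hinj
  rw [Fintype.card_prod] at hcard
  have hpos : 0 < Fintype.card W := Fintype.card_pos
  have hle1 : Fintype.card W ≤ 1 := by
    by_contra h
    push Not at h
    nlinarith
  apply hne
  rw [AddSubgroup.eq_bot_iff_forall]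
  intro x hx
  have := Fintype.card_le_one_iff.mp hle1 ⟨x, hx⟩ 0
  exact congrArg Subtype.val this

lemma orbits_of_no_finite
    (h : ¬ ∃ W : AddSubgroup M, W ≠ ⊥ ∧ Finite W ∧ ∀ f : M →ₗ[R] M, ∀ x ∈ W, f x ∈ W) :
    ∀ x : M, x ≠ 0 → (Set.range (fun f : M →ₗ[R] M => f x)).Infinite := by
  intro x hx hfin
  apply h
  refine ⟨(ev R M x).range, ?_, ?_, ?_⟩
  · intro hbot
    have : x ∈ (ev R M x).range := ⟨LinearMap.id, rfl⟩
    rw [hbot, AddSubgroup.mem_bot] at this
    exact hx this
  · exact hfin.to_subtype
  · rintro f _ ⟨g, rfl⟩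
    exact ⟨f.comp g, rfl⟩

lemma separates_square : Separates R M (M × M) := by
  intro x hx
  by_cases h : x.1 = 0
  · refine ⟨LinearMap.snd R M M, ?_⟩
    intro h2
    exact hx (Prod.ext h h2)
  · exact ⟨LinearMap.fst R M M, h⟩

lemma disc_iff_orbits :
    IsDisc R M ↔ ∀ x : M, x ≠ 0 → (Set.range (fun f : M →ₗ[R] M => f x)).Infinite :=
  ⟨fun h => orbits_of_no_finite (no_finite h), fun h => disc_of_orbits h separates_square⟩

end modules

section closure

variable {R : Type u} [Ring R] {ι : Type v} {M : ι → Type w} [∀ i, AddCommGroup (M i)]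
  [∀ i, Module R (M i)]

lemma disc_pi (h : ∀ i, IsDisc R (M i)) : IsDisc R (∀ i, M i) := by
  classical
  rw [disc_iff_orbits]
  intro x hx
  obtain ⟨i, hi⟩ : ∃ i, x i ≠ 0 := by
    by_contra hcon
    push Not at hcon
    exact hx (funext hcon)
  have h1 := (disc_iff_orbits.1 (h i)) (x i) hi
  have h2 : Set.range (fun f : M i →ₗ[R] M i => f (x i)) ⊆
      (fun y : ∀ i, M i => y i) '' Set.range (fun f : (∀ i, M i) →ₗ[R] (∀ i, M i) => f x) := by
    rintro _ ⟨f, rfl⟩
    refine ⟨_, ⟨(LinearMap.single R M i).comp (f.comp (LinearMap.proj i)), rfl⟩, ?_⟩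
    simp
  exact fun h3 => h1 ((h3.image _).subset h2)

lemma disc_dfinsupp (h : ∀ i, IsDisc R (M i)) : IsDisc R (Π₀ i, M i) := by
  classical
  rw [disc_iff_orbits]
  intro x hx
  obtain ⟨i, hi⟩ : ∃ i, x i ≠ 0 := by
    by_contra hcon
    push Not at hcon
    exact hx (DFinsupp.ext hcon)
  have h1 := (disc_iff_orbits.1 (h i)) (x i) hi
  have h2 : Set.range (fun f : M i →ₗ[R] M i => f (x i)) ⊆
      (fun y : Π₀ i, M i => y i) '' Set.range (fun f : (Π₀ i, M i) →ₗ[R] (Π₀ i, M i) => f x) := by
    rintro _ ⟨f, rfl⟩
    refine ⟨_, ⟨(DFinsupp.lsingle i).comp (f.comp (DFinsupp.lapply i)), rfl⟩, ?_⟩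
    simp
  exact fun h3 => h1 ((h3.image _).subset h2)

end closure

section noetherian

variable {R : Type u} [CommRing R] [IsNoetherianRing R] {M : Type v} [AddCommGroup M] [Module R M]
  [Module.Finite R M]

lemma noeth : IsDisc R M ↔ ∀ W : Submodule R M, Finite W → W = ⊥ := by
  constructor
  · intro h W hW
    rw [disc_iff_orbits] at h
    by_contra hne
    obtain ⟨x, hxW, hx⟩ := W.exists_mem_ne_zero_of_ne_bot hne
    -- the annihilator of `x`
    let I : Ideal R := Submodule.annihilator (R ∙ x)
    have hI : ∀ a : R, a ∈ I ↔ a • x = 0 := fun a => Submodule.mem_annihilator_span_singleton x a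
    have hfinI : Finite (R ⧸ I) := by
      let g : R →ₗ[R] M := LinearMap.toSpanSingleton R M x
      have h1 : (g.range : Set M) ⊆ W := by
        rintro _ ⟨a, rfl⟩
        exact W.smul_mem a hxW
      have h2 : Finite g.range := (Set.toFinite (W : Set M)).subset h1
      have h3 : I = LinearMap.ker g := by
        ext a
        rw [hI, LinearMap.mem_ker]
        rfl
      rw [h3]
      exact Finite.of_equiv _ (g.quotKerEquivRange).symm.toEquiv
    let T : Submodule R M := Submodule.torsionBySet R M I
    have hT : ∀ y : M, y ∈ T ↔ ∀ a ∈ I, a • y = 0 := by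
      intro y
      rw [Submodule.mem_torsionBySet_iff]
      exact ⟨fun h a ha => h ⟨a, ha⟩, fun h a => h a.1 a.2⟩
    have hfinT : Finite T := by
      have h1 : Module.Finite R T := inferInstance
      obtain ⟨n, f, hf⟩ := Module.Finite.exists_fin' R T
      let F : (Fin n → R ⧸ I) → T := fun c => f (fun i => (c i).out)
      have hF : Function.Surjective F := by
        intro y
        obtain ⟨c, rfl⟩ := hf y
        refine ⟨fun i => Ideal.Quotient.mk I (c i), ?_⟩
        rw [← sub_eq_zero, ← map_sub]
        have h2 : ∀ i, (Ideal.Quotient.mk I (c i)).out - c i ∈ I := by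
          intro i
          rw [← Ideal.Quotient.eq]
          exact Ideal.Quotient.mk_out _
        rw [← Finset.univ_sum_single ((fun i => (Ideal.Quotient.mk I (c i)).out) - c), map_sum]
        apply Finset.sum_eq_zero
        intro i _
        have h3 : (Pi.single i (((fun i => (Ideal.Quotient.mk I (c i)).out) - c) i) : Fin n → R) =
          (((Ideal.Quotient.mk I (c i)).out) - c i) • Pi.single i 1 := by
          ext j
          by_cases hj : j = i
          · subst hj; simp
          · simp [hj]
        rw [h3, map_smul]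
        apply Subtype.ext
        exact (hT _).1 (f (Pi.single i 1)).2 _ (h2 i)
      exact Finite.of_surjective F hF
    apply h x hx
    apply (Set.toFinite (T : Set M)).subset
    rintro _ ⟨e, rfl⟩
    rw [SetLike.mem_coe, hT]
    intro a ha
    rw [← map_smul, (hI a).1 ha, map_zero]
  · intro h
    rw [disc_iff_orbits]
    intro x hx hfin
    have h1 : (R ∙ x) = ⊥ := by
      apply h
      apply hfin.subset
      intro y hy
      obtain ⟨a, rfl⟩ := Submodule.mem_span_singleton.1 hy
      exact ⟨a • LinearMap.id, rfl⟩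
    exact hx (Submodule.span_singleton_eq_bot.1 h1)

end noetherian

section groups

/-- A discriminating abelian group discriminates every group that is residually `A`. -/
lemma group_sep {A : Type v} [CommGroup A] (hA : IsDiscriminating A) (B : Type w) [Group B]
    (hB : ∀ b : B, b ≠ 1 → ∃ φ : B →* A, φ b ≠ 1) : Discriminates A B := by
  classical
  intro S hS
  by_contra hcon
  push Not at hcon
  have hcov : ⋃ s ∈ S, (1 : B →* A) •
      (((evalHom (A := A) s).ker : Subgroup (B →* A)) : Set (B →* A)) = Set.univ := by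
    apply Set.eq_univ_of_forall
    intro φ
    obtain ⟨s, hs, hφ⟩ := hcon φ
    simp only [one_smul, Set.mem_iUnion]
    exact ⟨s, hs, hφ⟩
  obtain ⟨s, hs, hfi⟩ := Subgroup.exists_finiteIndex_of_leftCoset_cover hcov
  obtain ⟨g, hg⟩ := hB s (hS s hs)
  apply no_finite_of_discriminating hA
  refine ⟨(evalHom (H := A) (A := A) (g s)).range, ?_, ?_, ?_⟩
  · intro hbot
    have : g s ∈ (evalHom (H := A) (A := A) (g s)).range := ⟨MonoidHom.id A, rfl⟩
    rw [hbot, Subgroup.mem_bot] at this
    exact hg this
  · have h1 := finite_range_evalHom (A := A) s hfi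
    have h2 : (((evalHom (H := A) (A := A) (g s)).range : Subgroup A) : Set A) ⊆
        ((evalHom (A := A) s).range : Subgroup A) := by
      rintro _ ⟨e, rfl⟩
      exact ⟨e.comp g, rfl⟩
    exact (Set.toFinite (((evalHom (A := A) s).range : Subgroup A) : Set A)).subset h2
  · rintro ψ w ⟨φ, rfl⟩
    exact ⟨ψ.comp φ, rfl⟩

lemma group_module (A : Type v) [CommGroup A] :
    IsDiscriminating A ↔ IsDisc ℤ (Additive A) := by
  constructor
  · intro h S hS
    obtain ⟨φ, hφ⟩ := h (S.map ⟨fun x => (x.1.toMul, x.2.toMul), fun x y h => by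
      simpa [Prod.ext_iff] using h⟩) (by
        intro y hy
        obtain ⟨x, hx, rfl⟩ := Finset.mem_map.1 hy
        intro h1
        exact hS x hx h1)
    let f : Additive A × Additive A →+ Additive A :=
      { toFun := fun x => Additive.ofMul (φ (x.1.toMul, x.2.toMul))
        map_zero' := by
          change Additive.ofMul (φ 1) = 0
          rw [map_one]
          rfl
        map_add' := by
          intro x y
          change Additive.ofMul (φ ((x.1.toMul, x.2.toMul) * (y.1.toMul, y.2.toMul))) = _
          rw [map_mul]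
          rfl }
    refine ⟨f.toIntLinearMap, ?_⟩
    intro x hx h1
    exact hφ _ (Finset.mem_map_of_mem _ hx) h1
  · intro h S hS
    obtain ⟨f, hf⟩ := h (S.map ⟨fun x => (Additive.ofMul x.1, Additive.ofMul x.2), fun x y h => by
      simpa [Prod.ext_iff] using h⟩) (by
        intro y hy
        obtain ⟨x, hx, rfl⟩ := Finset.mem_map.1 hy
        intro h1
        exact hS x hx h1)
    let φ : A × A →* A :=
      { toFun := fun x => (f (Additive.ofMul x.1, Additive.ofMul x.2)).toMul
        map_one' := by
          change (f 0).toMul = 1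
          rw [map_zero]
          rfl
        map_mul' := by
          intro x y
          change (f ((Additive.ofMul x.1, Additive.ofMul x.2) +
            (Additive.ofMul y.1, Additive.ofMul y.2))).toMul = _
          rw [map_add]
          rfl }
    refine ⟨φ, ?_⟩
    intro x hx h1
    exact hf _ (Finset.mem_map_of_mem _ hx) h1

end groups

/-- **Characterisation of the discriminating modules over arbitrary rings, and of the abelian
discriminating groups.** -/
theorem result :
    -- (1) modules over arbitrary rings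
    (∀ (R : Type u) [Ring R] (M : Type v) [AddCommGroup M] [Module R M],
      (IsDisc R M ↔
        ¬ ∃ W : AddSubgroup M, W ≠ ⊥ ∧ Finite W ∧ ∀ f : M →ₗ[R] M, ∀ x ∈ W, f x ∈ W) ∧
      (IsDisc R M ↔ ∀ x : M, x ≠ 0 → (Set.range (fun f : M →ₗ[R] M => f x)).Infinite) ∧
      (IsDisc R M ↔
        ∀ (N : Type v) [AddCommGroup N] [Module R N], Separates R M N → Disc R M N)) ∧
    -- (2) direct products and direct sums
    (∀ (R : Type u) [Ring R] (ι : Type v) (M : ι → Type w) [∀ i, AddCommGroup (M i)]
      [∀ i, Module R (M i)], (∀ i, IsDisc R (M i)) →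
        IsDisc R (∀ i, M i) ∧ IsDisc R (Π₀ i, M i)) ∧
    -- (3) finitely generated modules over commutative Noetherian rings
    (∀ (R : Type u) [CommRing R] [IsNoetherianRing R] (M : Type v) [AddCommGroup M] [Module R M]
      [Module.Finite R M], IsDisc R M ↔ ∀ W : Submodule R M, Finite W → W = ⊥) ∧
    -- (4) abelian groups
    (∀ (A : Type v) [CommGroup A],
      (IsDiscriminating A ↔ IsDisc ℤ (Additive A)) ∧
      (IsDiscriminating A ↔
        ¬ ∃ W : Subgroup A, W ≠ ⊥ ∧ Finite W ∧ IsFullyInvariant W) ∧
      (IsDiscriminating A ↔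
        ∀ p : ℕ, p.Prime →
          (∀ k : ℕ, {a : A | a ^ p = 1 ∧ ∃ b : A, b ^ p ^ k = a} = {1} ∨
            {a : A | a ^ p = 1 ∧ ∃ b : A, b ^ p ^ k = a}.Infinite) ∧
          (∀ a : A, a ≠ 1 → a ^ p = 1 → (∀ k : ℕ, ∃ b : A, b ^ p ^ k = a) →
            (Set.range (fun φ : A →* A => φ a)).Infinite)) ∧
      (IsDiscriminating A ↔ ∀ (B : Type v) [Group B],
        (∀ b : B, b ≠ 1 → ∃ φ : B →* A, φ b ≠ 1) → Discriminates A B)) := by
  refine ⟨?_, ?_, ?_, ?_⟩
  · intro R _ M _ _
    refine ⟨⟨no_finite, fun h => disc_of_orbits (orbits_of_no_finite h) separates_square⟩,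
      disc_iff_orbits, ⟨fun h N _ _ hN => disc_of_orbits (disc_iff_orbits.1 h) hN,
        fun h => h (M × M) separates_square⟩⟩
  · intro R _ ι M _ _ h
    exact ⟨disc_pi h, disc_dfinsupp h⟩
  · intro R _ _ M _ _ _
    exact noeth
  · intro A _
    refine ⟨group_module A, (DiscriminatingCriterion.result A).1,
      (DiscriminatingCriterion.result A).2, ⟨fun h B _ hB => group_sep h B hB, fun h => ?_⟩⟩
    apply h (A × A)
    intro x hx
    by_cases h1 : x.1 = 1
    · refine ⟨MonoidHom.snd A A, ?_⟩
      intro h2
      exact hx (Prod.ext h1 h2)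
    · exact ⟨MonoidHom.fst A A, h1⟩

end Pool.Agent.Results.MP_ef4983_al.ModulesOverRings
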